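import Pool.Agent.KS6_96.HC.Gen

/-!
# Two-sided explicit linear bounds for `m₂((2,2), n)`, and placement of graphs of bounded degree

`(n - 4) / 88 ≤ m₂((2,2), n) ≤ (3 n - 9) / 2` for all `n ≥ 4` (the known upper bound is `3 n - 13`).
Moreover the lower bound is not special to Hamilton cycles: it holds for the copies of every graph of
bounded degree, and under a condition on the degrees of the vertices only.
-/

set_option autoImplicit false

namespace Pool.Agent.Results.MP_626dc7_co.TwoSided

open Finset Pool.Agent.KS6_96.HC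

/-- The edge of the Hamilton cycle `c 0, c 1, …, c (n-1), c 0` between positions `i` and `i + 1`. -/
def edge {n : ℕ} (c : Equiv.Perm (Fin n)) (i : Fin n) : Finset (Fin n) :=
  {c i, c (finRotate n i)}

/-- The Hamilton cycle `c 0, c 1, …, c (n-1), c 0` is `(2,2)`-acceptable with respect to `F`: no two
vertex-disjoint edges of it have their union in `F`. -/
def Acceptable {n : ℕ} (F : Finset (Finset (Fin n))) (c : Equiv.Perm (Fin n)) : Prop :=
  ∀ i j : Fin n, Disjoint (edge c i) (edge c j) → edge c i ∪ edge c j ∉ F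

/-- The 2-degree of `F`. -/
def d2 {n : ℕ} (F : Finset (Finset (Fin n))) : ℕ :=
  ((univ : Finset (Fin n)).powersetCard 2).sup fun D => (F.filter fun X => D ⊆ X).card

/-- `m₂((2,2), n)`: the least 2-degree of a family of four-sets with respect to which `K_n` has no
`(2,2)`-acceptable Hamilton cycle. -/
noncomputable def m2 (n : ℕ) : ℕ :=
  sInf {k | ∃ F : Finset (Finset (Fin n)), (∀ X ∈ F, X.card = 4) ∧ (∀ c, ¬ Acceptable F c) ∧
    d2 F = k}

/-! ### The lower bound -/

theorem next_ne {n : ℕ} (hn : 2 ≤ n) (i : Fin n) : finRotate n i ≠ i := by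
  obtain ⟨m, rfl⟩ : ∃ m, n = m + 2 := ⟨n - 2, by omega⟩
  rw [finRotate_apply]
  intro h
  have h1 : (1 : Fin (m + 2)) = 0 := by
    have := add_left_cancel (h.trans (add_zero i).symm)
    exact this
  simp at h1

/-- the cycle on the positions -/
def cyc (n : ℕ) : SimpleGraph (Fin n) := SimpleGraph.fromRel fun i j => j = finRotate n i

theorem cyc_deg (n : ℕ) (v : Fin n) : ((cyc n).neighborSet v).ncard ≤ 2 := by
  have h : (cyc n).neighborSet v ⊆ {finRotate n v, (finRotate n).symm v} := by
    intro w hw
    have hw' : (cyc n).Adj v w := hw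
    rw [cyc, SimpleGraph.fromRel_adj] at hw'
    rcases hw'.2 with h | h
    · exact Or.inl h
    · right
      show w = (finRotate n).symm v
      rw [h, Equiv.symm_apply_apply]
  refine (Set.ncard_le_ncard h (Set.toFinite _)).trans ((Set.ncard_insert_le _ _).trans ?_)
  rw [Set.ncard_singleton]

theorem deg_le {n : ℕ} (F : Finset (Finset (Fin n))) (hF : ∀ X ∈ F, X.card = 4) (u : Fin n) :
    3 * deg F u ≤ (n - 1) * d2 F := by
  classical
  have h1 : ∑ X ∈ F.filter (fun X => u ∈ X), (X.erase u).card =
      ∑ v ∈ Finset.univ.erase u, (F.filter (fun X => {u, v} ⊆ X)).card := by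
    have e1 : ∀ X ∈ F.filter (fun X => u ∈ X), (X.erase u).card =
        ∑ v ∈ Finset.univ.erase u, if v ∈ X then 1 else 0 := by
      intro X _
      rw [← Finset.card_filter]
      congr 1
      ext v
      simp [and_comm]
    rw [Finset.sum_congr rfl e1, Finset.sum_comm]
    refine Finset.sum_congr rfl fun v _ => ?_
    rw [← Finset.card_filter, Finset.filter_filter]
    congr 1
    ext X
    simp only [Finset.mem_filter, Finset.insert_subset_iff, Finset.singleton_subset_iff]
  have h2 : ∑ X ∈ F.filter (fun X => u ∈ X), (X.erase u).card = 3 * deg F u := by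
    have e1 : ∀ X ∈ F.filter (fun X => u ∈ X), (X.erase u).card = 3 := by
      intro X hX
      obtain ⟨h1, h2⟩ := Finset.mem_filter.1 hX
      rw [Finset.card_erase_of_mem h2, hF X h1]
    rw [Finset.sum_congr rfl e1, Finset.sum_const, smul_eq_mul, mul_comm]
    rfl
  rw [← h2, h1]
  have h3 : ∀ v ∈ Finset.univ.erase u, (F.filter (fun X => {u, v} ⊆ X)).card ≤ d2 F := by
    intro v hv
    have hvu : u ≠ v := (Finset.ne_of_mem_erase hv).symm
    unfold d2
    exact Finset.le_sup (f := fun D : Finset (Fin n) => (F.filter (fun X => D ⊆ X)).card)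
      (Finset.mem_powersetCard.2 ⟨Finset.subset_univ _, Finset.card_pair hvu⟩)
  refine (Finset.sum_le_card_nsmul _ _ _ h3).trans ?_
  rw [smul_eq_mul, Finset.card_erase_of_mem (Finset.mem_univ _), Finset.card_univ, Fintype.card_fin]

theorem lower {n : ℕ} (hn : 4 ≤ n) (F : Finset (Finset (Fin n))) (hF : ∀ X ∈ F, X.card = 4)
    (hno : ∀ c, ¬ Acceptable F c) : n ≤ 88 * d2 F + 4 := by
  by_contra hcon
  push Not at hcon
  set d := (n - 1) * d2 F / 3 with hd
  have hd3 : 3 * d ≤ (n - 1) * d2 F := Nat.mul_div_le _ _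
  have hdeg : ∀ u, deg F u ≤ d := fun u => by
    rw [hd, Nat.le_div_iff_mul_le (by norm_num), mul_comm]
    exact deg_le F hF u
  have hmain : 66 * (2 * 2 * n * d) ≤ (n - 1) * (n - 2) * (n - 3) := by
    have h1 : 66 * (2 * 2 * n * d) = 88 * n * (3 * d) := by ring
    rw [h1]
    refine (Nat.mul_le_mul_left _ hd3).trans ?_
    have h2 : 88 * n * ((n - 1) * d2 F) = (n - 1) * (n * (88 * d2 F)) := by ring
    rw [h2, mul_assoc (n - 1)]
    refine Nat.mul_le_mul_left _ ?_
    have h3 : 88 * d2 F ≤ n - 5 := by omega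
    refine (Nat.mul_le_mul_left n h3).trans ?_
    obtain ⟨m, rfl⟩ : ∃ m, n = m + 5 := ⟨n - 5, by omega⟩
    have e1 : m + 5 - 5 = m := by omega
    have e2 : m + 5 - 2 = m + 3 := by omega
    have e3 : m + 5 - 3 = m + 2 := by omega
    rw [e1, e2, e3]
    nlinarith
  obtain ⟨σ, hσ⟩ := placement (cyc n) (cyc_deg n) F hF d hdeg hmain
  refine hno σ fun i j hij hmem => ?_
  have hadj : ∀ k : Fin n, (cyc n).Adj k (finRotate n k) := fun k => by
    rw [cyc, SimpleGraph.fromRel_adj]
    exact ⟨(next_ne (by omega) k).symm, Or.inl rfl⟩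
  have hne : ∀ x ∈ ({i, finRotate n i} : Finset (Fin n)),
      ∀ y ∈ ({j, finRotate n j} : Finset (Fin n)), x ≠ y := by
    intro x hx y hy hxy
    subst hxy
    have h1 : σ x ∈ edge σ i := by
      unfold edge
      rcases Finset.mem_insert.1 hx with rfl | hx
      · exact Finset.mem_insert_self _ _
      · rw [Finset.mem_singleton.1 hx]; simp
    have h2 : σ x ∈ edge σ j := by
      unfold edge
      rcases Finset.mem_insert.1 hy with rfl | hy
      · exact Finset.mem_insert_self _ _
      · rw [Finset.mem_singleton.1 hy]; simp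
    exact Finset.disjoint_left.1 hij h1 h2
  refine hσ i (finRotate n i) j (finRotate n j) (hadj i) (hadj j) (hne i (by simp) j (by simp))
    (hne i (by simp) (finRotate n j) (by simp)) (hne (finRotate n i) (by simp) j (by simp))
    (hne (finRotate n i) (by simp) (finRotate n j) (by simp)) ?_
  have e : ({σ i, σ (finRotate n i), σ j, σ (finRotate n j)} : Finset (Fin n)) =
      edge σ i ∪ edge σ j := by
    ext x
    simp only [edge, Finset.mem_union, Finset.mem_insert, Finset.mem_singleton]
    tauto
  rw [e]; exact hmem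

/-! ### The upper bound -/

/-- The blocking family: the four-sets which contain `0` and two of the vertices `2j - 1`, `2j`. -/
def Blk (n : ℕ) : Finset (Finset (Fin n)) :=
  ((univ : Finset (Fin n)).powersetCard 4).filter fun X =>
    (∃ z ∈ X, z.val = 0) ∧ ∃ a ∈ X, ∃ b ∈ X, a.val % 2 = 1 ∧ b.val = a.val + 1

theorem mem_Blk {n : ℕ} {X : Finset (Fin n)} : X ∈ Blk n ↔ X.card = 4 ∧ (∃ z ∈ X, z.val = 0) ∧
    ∃ a ∈ X, ∃ b ∈ X, a.val % 2 = 1 ∧ b.val = a.val + 1 := by
  unfold Blk
  rw [Finset.mem_filter, Finset.mem_powersetCard]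
  simp

theorem blk_card {n : ℕ} : ∀ X ∈ Blk n, X.card = 4 := fun _ hX => (mem_Blk.1 hX).1

/-- the mate of a vertex -/
theorem mate {m : ℕ} (x : Fin (m + 4)) (h0 : x ≠ 0) (h1 : x.val ≠ m + 3) :
    ∃ y : Fin (m + 4), y ≠ 0 ∧ y ≠ x ∧ ((x.val % 2 = 1 ∧ y.val = x.val + 1) ∨
      (y.val % 2 = 1 ∧ x.val = y.val + 1)) := by
  have hx : x.val ≠ 0 := fun h => h0 (Fin.ext h)
  have hx' := x.isLt
  rcases Nat.mod_two_eq_zero_or_one x.val with h | h
  · refine ⟨⟨x.val - 1, by omega⟩, fun e => ?_, fun e => ?_, Or.inr ⟨?_, ?_⟩⟩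
    · have := congrArg Fin.val e
      simp at this
      omega
    · have := congrArg Fin.val e
      simp at this
      omega
    · show (x.val - 1) % 2 = 1
      omega
    · show x.val = x.val - 1 + 1
      omega
  · refine ⟨⟨x.val + 1, by omega⟩, fun e => ?_, fun e => ?_, Or.inl ⟨h, rfl⟩⟩
    · have := congrArg Fin.val e
      simp at this
    · have := congrArg Fin.val e
      simp at this

theorem blocked {m : ℕ} (c : Equiv.Perm (Fin (m + 4))) : ¬ Acceptable (Blk (m + 4)) c := by
  intro hc
  have one_val : (1 : Fin (m + 4)).val = 1 := Fin.val_one (m + 2)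
  have one_ne : (1 : Fin (m + 4)) ≠ 0 := by
    intro h
    have h2 := congrArg Fin.val h
    rw [one_val, Fin.val_zero] at h2
    omega
  have two_ne : (1 : Fin (m + 4)) + 1 ≠ 0 := by
    intro h
    have h2 := congrArg Fin.val h
    rw [Fin.val_add, one_val, Fin.val_zero] at h2
    rw [Nat.mod_eq_of_lt (by omega)] at h2
    omega
  have three_ne : (1 : Fin (m + 4)) + 1 + 1 ≠ 0 := by
    intro h
    have h2 := congrArg Fin.val h
    have e1 : ((1 : Fin (m + 4)) + 1).val = 2 := by
      rw [Fin.val_add, one_val]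
      exact Nat.mod_eq_of_lt (by omega)
    rw [Fin.val_add, e1, one_val, Fin.val_zero] at h2
    rw [Nat.mod_eq_of_lt (by omega)] at h2
    omega
  -- an edge at `0` whose other end has a mate
  obtain ⟨i, x, hx0, hx1, hix⟩ : ∃ (i x : Fin (m + 4)), x ≠ 0 ∧ x.val ≠ m + 3 ∧
      ((c i = 0 ∧ c (i + 1) = x) ∨ (c i = x ∧ c (i + 1) = 0)) := by
    obtain ⟨p, hp⟩ := c.surjective 0
    have hpp : p - 1 + 1 = p := sub_add_cancel p 1
    have a1 : c (p + 1) ≠ 0 := fun h => by
      rw [← hp] at h
      have := c.injective h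
      exact one_ne (left_eq_add.1 this.symm)
    have a2 : c (p - 1) ≠ 0 := fun h => by
      rw [← hp] at h
      have := c.injective h
      have h5 : p = p + 1 := by
        conv_lhs => rw [← hpp, this]
      exact one_ne (left_eq_add.1 h5)
    have a3 : c (p + 1) ≠ c (p - 1) := fun h => by
      have := c.injective h
      have h5 : p = p + (1 + 1) := by
        rw [← add_assoc, this, hpp]
      exact two_ne (left_eq_add.1 h5)
    by_cases h : (c (p + 1)).val = m + 3
    · refine ⟨p - 1, c (p - 1), a2, fun h' => a3 (Fin.ext (h.trans h'.symm)), Or.inr ⟨rfl, ?_⟩⟩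
      rw [hpp, hp]
    · exact ⟨p, c (p + 1), a1, h, Or.inl ⟨hp, rfl⟩⟩
  obtain ⟨y, hy0, hyx, hy⟩ := mate x hx0 hx1
  obtain ⟨q, hq⟩ := c.surjective y
  have q1 : q ≠ i := by
    rintro rfl
    rcases hix with h | h
    · exact hy0 (hq.symm.trans h.1)
    · exact hyx (hq.symm.trans h.1)
  have q2 : q ≠ i + 1 := by
    rintro rfl
    rcases hix with h | h
    · exact hyx (hq.symm.trans h.2)
    · exact hy0 (hq.symm.trans h.2)
  -- an edge at the mate, disjoint from the first one
  obtain ⟨j, j1, j2, j3, hj⟩ : ∃ j : Fin (m + 4), j ≠ i ∧ j ≠ i + 1 ∧ j + 1 ≠ i ∧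
      (j = q ∨ j + 1 = q) := by
    by_cases h : q + 1 = i
    · have hqq : q - 1 + 1 = q := sub_add_cancel q 1
      refine ⟨q - 1, ?_, ?_, ?_, Or.inr hqq⟩
      · intro e
        have h5 : q = q + (1 + 1) := by
          conv_lhs => rw [← hqq, e, ← h]
          rw [add_assoc]
        exact two_ne (left_eq_add.1 h5)
      · intro e
        have h5 : q = q + (1 + 1 + 1) := by
          conv_lhs => rw [← hqq, e, ← h]
          rw [← add_assoc, ← add_assoc]
        exact three_ne (left_eq_add.1 h5)
      · rw [hqq]; exact q1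
    · exact ⟨q, q1, q2, h, Or.inl rfl⟩
  have hdis : Disjoint (edge c i) (edge c j) := by
    unfold edge
    rw [finRotate_apply, finRotate_apply, Finset.disjoint_left]
    intro a ha hb
    simp only [Finset.mem_insert, Finset.mem_singleton] at ha hb
    rcases ha with rfl | rfl <;> rcases hb with hb | hb
    · exact j1 (c.injective hb).symm
    · exact j3 (c.injective hb).symm
    · exact j2 (c.injective hb).symm
    · exact j1 (add_right_cancel (c.injective hb)).symm
  have hcard : ∀ k, (edge c k).card = 2 := by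
    intro k
    unfold edge
    rw [Finset.card_pair]
    intro h
    exact next_ne (by omega) k (c.injective h).symm
  refine hc i j hdis (mem_Blk.2 ⟨?_, ?_, ?_⟩)
  · rw [Finset.card_union_of_disjoint hdis, hcard, hcard]
  · have h0 : (0 : Fin (m + 4)) ∈ edge c i := by
      unfold edge
      rw [finRotate_apply]
      rcases hix with h | h
      · rw [h.1]; simp
      · rw [h.2]; simp
    exact ⟨0, Finset.mem_union_left _ h0, rfl⟩
  · have hx : x ∈ edge c i := by
      unfold edge
      rw [finRotate_apply]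
      rcases hix with h | h
      · rw [h.2]; simp
      · rw [h.1]; simp
    have hyj : y ∈ edge c j := by
      unfold edge
      rw [finRotate_apply]
      rcases hj with h | h
      · rw [h, hq]; simp
      · rw [h, hq]; simp
    rcases hy with h | h
    · exact ⟨x, Finset.mem_union_left _ hx, y, Finset.mem_union_right _ hyj, h⟩
    · exact ⟨y, Finset.mem_union_right _ hyj, x, Finset.mem_union_left _ hx, h⟩

/-- at most `n - 3` four-sets contain three given vertices -/
theorem three_le {n : ℕ} (a b c : Fin n) (hab : a ≠ b) (hac : a ≠ c) (hbc : b ≠ c)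
    (S : Finset (Finset (Fin n))) (hS : ∀ X ∈ S, X.card = 4 ∧ a ∈ X ∧ b ∈ X ∧ c ∈ X) :
    S.card ≤ n - 3 := by
  classical
  have h3 : ({a, b, c} : Finset (Fin n)).card = 3 := by
    rw [Finset.card_eq_three]; exact ⟨a, b, c, hab, hac, hbc, rfl⟩
  have h1 : S ⊆ (univ \ {a, b, c}).image (fun w => insert w ({a, b, c} : Finset (Fin n))) := by
    intro X hX
    obtain ⟨hc, ha, hb, hc'⟩ := hS X hX
    have hsub : ({a, b, c} : Finset (Fin n)) ⊆ X := by
      intro t ht
      simp only [Finset.mem_insert, Finset.mem_singleton] at ht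
      rcases ht with rfl | rfl | rfl <;> assumption
    obtain ⟨w, hw⟩ : (X \ {a, b, c}).Nonempty := by
      rw [← Finset.card_pos, Finset.card_sdiff_of_subset hsub, hc, h3]; norm_num
    obtain ⟨hw1, hw2⟩ := Finset.mem_sdiff.1 hw
    refine Finset.mem_image.2 ⟨w, Finset.mem_sdiff.2 ⟨Finset.mem_univ _, hw2⟩, ?_⟩
    refine Finset.eq_of_subset_of_card_le (Finset.insert_subset hw1 hsub) ?_
    rw [Finset.card_insert_of_notMem hw2, h3, hc]
  refine (Finset.card_le_card h1).trans (Finset.card_image_le.trans ?_)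
  rw [Finset.card_sdiff_of_subset (Finset.subset_univ _), h3, Finset.card_univ, Fintype.card_fin]

theorem d2_le {m : ℕ} : d2 (Blk (m + 4)) ≤ m + (m + 3) / 2 := by
  classical
  refine Finset.sup_le fun D hD => ?_
  have hD2 := (Finset.mem_powersetCard.1 hD).2
  by_cases h0 : (0 : Fin (m + 4)) ∈ D
  · -- `D = {0, y}`
    obtain ⟨y, hy⟩ : (D.erase 0).Nonempty := by
      rw [← Finset.card_pos, Finset.card_erase_of_mem h0, hD2]; norm_num
    obtain ⟨hy0, hyD⟩ := Finset.mem_erase.1 hy
    have hyv : y.val ≠ 0 := fun h => hy0 (Fin.ext h)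
    let g : ℕ → Finset (Fin (m + 4)) := fun j => univ.filter fun x =>
      x.val = 0 ∨ x = y ∨ x.val + 1 = 2 * j ∨ x.val = 2 * j
    -- the sets whose pair avoids `y`
    have hS2 : ∀ X ∈ (Blk (m + 4)).filter (fun X => D ⊆ X),
        (∀ y' ∈ X, ¬ (y.val % 2 = 1 ∧ y'.val = y.val + 1) ∧ ¬ (y'.val % 2 = 1 ∧ y.val = y'.val + 1)) →
        X ∈ ((Finset.Icc 1 ((m + 3) / 2)).erase ((y.val + 1) / 2)).image g ∧
          X ∈ ((Finset.Icc 1 ((m + 3) / 2)).erase ((y.val + 1) / 2)).image g := by
      intro X hX hno
      obtain ⟨hX1, hX2⟩ := Finset.mem_filter.1 hX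
      obtain ⟨hc, -, a, ha, b, hb, hab, hba⟩ := mem_Blk.1 hX1
      have h0X := hX2 h0
      have hyX := hX2 hyD
      have hay : a ≠ y := by
        rintro rfl
        exact (hno b hb).1 ⟨hab, hba⟩
      have hby : b ≠ y := by
        rintro rfl
        exact (hno a ha).2 ⟨hab, hba⟩
      have hay' : a.val ≠ y.val := fun h => hay (Fin.ext h)
      have hby' : b.val ≠ y.val := fun h => hby (Fin.ext h)
      have ha0 : a ≠ 0 := by rintro rfl; simp at hab
      have hb0 : b ≠ 0 := by
        rintro rfl; simp at hba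
      have hbl := b.isLt
      have hmem : X ∈ ((Finset.Icc 1 ((m + 3) / 2)).erase ((y.val + 1) / 2)).image g := by
        refine Finset.mem_image.2 ⟨(a.val + 1) / 2, Finset.mem_erase.2 ⟨by omega,
          Finset.mem_Icc.2 ⟨by omega, by omega⟩⟩, ?_⟩
        have hab' : a ≠ b := by
          rintro rfl; omega
        have h4 : ({0, y, a, b} : Finset (Fin (m + 4))).card = 4 := by
          rw [Finset.card_insert_of_notMem, Finset.card_insert_of_notMem, Finset.card_pair hab']
          · simp [hay.symm, hby.symm]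
          · simp [hy0.symm, ha0.symm, hb0.symm]
        have hXe : ({0, y, a, b} : Finset (Fin (m + 4))) = X := by
          refine Finset.eq_of_subset_of_card_le ?_ (by rw [h4, hc])
          intro t ht
          simp only [Finset.mem_insert, Finset.mem_singleton] at ht
          rcases ht with rfl | rfl | rfl | rfl <;> assumption
        rw [← hXe]
        ext t
        simp only [g, Finset.mem_filter, Finset.mem_univ, true_and, Finset.mem_insert,
          Finset.mem_singleton]
        have e1 : t = 0 ↔ t.val = 0 := ⟨fun h => by rw [h]; rfl, fun h => Fin.ext h⟩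
        have e2 : t = a ↔ t.val = a.val := Fin.ext_iff
        have e3 : t = b ↔ t.val = b.val := Fin.ext_iff
        rw [e1, e2, e3]
        constructor
        · rintro (h | h | h | h)
          · exact Or.inl h
          · exact Or.inr (Or.inl h)
          · right; right; left; omega
          · right; right; right; omega
        · rintro (h | h | h | h)
          · exact Or.inl h
          · exact Or.inr (Or.inl h)
          · right; right; left; omega
          · right; right; right; omega
      exact ⟨hmem, hmem⟩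
    have hcard2 : (((Finset.Icc 1 ((m + 3) / 2)).erase ((y.val + 1) / 2)).image g).card ≤
        (m + 3) / 2 := by
      refine Finset.card_image_le.trans ((Finset.card_le_card (Finset.erase_subset _ _)).trans ?_)
      simp
    by_cases hlast : y.val = m + 3 ∧ y.val % 2 = 1
    · -- `y` has no mate
      refine (Finset.card_le_card (t := ((Finset.Icc 1 ((m + 3) / 2)).erase
        ((y.val + 1) / 2)).image g) fun X hX => (hS2 X hX fun y' hy' => ⟨?_, ?_⟩).1).trans
        (hcard2.trans (by omega))
      · rintro ⟨-, h⟩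
        have := y'.isLt
        omega
      · rintro ⟨h, h'⟩
        omega
    · obtain ⟨y', hy'0, hy'y, hy'⟩ : ∃ y' : Fin (m + 4), y' ≠ 0 ∧ y' ≠ y ∧
          ((y.val % 2 = 1 ∧ y'.val = y.val + 1) ∨ (y'.val % 2 = 1 ∧ y.val = y'.val + 1)) := by
        by_cases h : y.val = m + 3
        · have h2 : y.val % 2 = 0 := by
            rcases Nat.mod_two_eq_zero_or_one y.val with h3 | h3
            · exact h3
            · exact absurd ⟨h, h3⟩ hlast
          refine ⟨⟨y.val - 1, by omega⟩, fun e => ?_, fun e => ?_, Or.inr ⟨?_, ?_⟩⟩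
          · have := congrArg Fin.val e
            simp at this
            omega
          · have := congrArg Fin.val e
            simp at this
            omega
          · show (y.val - 1) % 2 = 1
            omega
          · show y.val = y.val - 1 + 1
            omega
        · exact mate y hy0 h
      have hsub : (Blk (m + 4)).filter (fun X => D ⊆ X) ⊆
          ((Blk (m + 4)).filter (fun X => D ⊆ X)).filter (fun X => y' ∈ X) ∪
          ((Finset.Icc 1 ((m + 3) / 2)).erase ((y.val + 1) / 2)).image g := by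
        intro X hX
        by_cases hyX : y' ∈ X
        · exact Finset.mem_union_left _ (Finset.mem_filter.2 ⟨hX, hyX⟩)
        · refine Finset.mem_union_right _ (hS2 X hX fun z hz => ⟨fun h => ?_, fun h => ?_⟩).1
          · refine hyX ?_
            have : y' = z := by
              apply Fin.ext
              rcases hy' with h' | h' <;> omega
            rw [this]; exact hz
          · refine hyX ?_
            have : y' = z := by
              apply Fin.ext
              rcases hy' with h' | h' <;> omega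
            rw [this]; exact hz
      refine (Finset.card_le_card hsub).trans ((Finset.card_union_le _ _).trans ?_)
      have h1 := three_le (n := m + 4) 0 y y' hy0.symm hy'0.symm hy'y.symm
        (((Blk (m + 4)).filter (fun X => D ⊆ X)).filter (fun X => y' ∈ X)) (by
          intro X hX
          obtain ⟨hX1, hX2⟩ := Finset.mem_filter.1 hX
          obtain ⟨hX3, hX4⟩ := Finset.mem_filter.1 hX1
          exact ⟨blk_card X hX3, hX4 h0, hX4 hyD, hX2⟩)
      have h2 : (((Finset.Icc 1 ((m + 3) / 2)).erase ((y.val + 1) / 2)).image g).card ≤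
          (m + 3) / 2 - 1 := by
        refine Finset.card_image_le.trans ?_
        rw [Finset.card_erase_of_mem, Nat.card_Icc]
        · omega
        · have := y.isLt
          have := y'.isLt
          rw [Finset.mem_Icc]
          rcases hy' with h' | h'
          · omega
          · omega
      omega
  · -- `D = {x, y}` without `0`
    obtain ⟨x, y, hxy, rfl⟩ := Finset.card_eq_two.1 hD2
    simp only [Finset.mem_insert, Finset.mem_singleton, not_or] at h0
    have h1 := three_le (n := m + 4) 0 x y h0.1 h0.2 hxy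
      ((Blk (m + 4)).filter (fun X => {x, y} ⊆ X)) (by
        intro X hX
        obtain ⟨hX1, hX2⟩ := Finset.mem_filter.1 hX
        obtain ⟨hc, ⟨z, hz, hz0⟩, -⟩ := mem_Blk.1 hX1
        have : z = 0 := Fin.ext hz0
        subst this
        exact ⟨hc, hz, hX2 (by simp), hX2 (by simp)⟩)
    omega

/-- **Main theorem.**
1. `n ≤ 88 m₂((2,2), n) + 4` for all `n ≥ 4`: the quantity `m₂((2,2), n)` grows linearly.
2. `m₂((2,2), n) ≤ (3 n - 9) / 2` for all `n ≥ 4`.
3. Let `G` be a graph on `n` vertices with all degrees at most `Δ`, and let `F` be a family of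
four-sets such that every vertex lies in at most `d` members of `F`, where
`66 Δ² n d ≤ (n-1)(n-2)(n-3)`. Then `K_n` has a copy of `G` such that no two vertex-disjoint edges
of the copy have their union in `F`. -/
theorem result :
    (∀ n : ℕ, 4 ≤ n → n ≤ 88 * m2 n + 4) ∧
    (∀ n : ℕ, 4 ≤ n → 2 * m2 n + 9 ≤ 3 * n) ∧
    ∀ (n Δ d : ℕ) (G : SimpleGraph (Fin n)), (∀ v, (G.neighborSet v).ncard ≤ Δ) →
      ∀ F : Finset (Finset (Fin n)), (∀ X ∈ F, X.card = 4) →
        (∀ u : Fin n, (F.filter fun X => u ∈ X).card ≤ d) →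
        66 * (Δ * Δ * n * d) ≤ (n - 1) * (n - 2) * (n - 3) →
        ∃ σ : Equiv.Perm (Fin n), ∀ a b a' b' : Fin n, G.Adj a b → G.Adj a' b' →
          Disjoint ({σ a, σ b} : Finset (Fin n)) {σ a', σ b'} →
            ({σ a, σ b} : Finset (Fin n)) ∪ {σ a', σ b'} ∉ F := by
  refine ⟨fun n hn => ?_, fun n hn => ?_, fun n Δ d G hG F hF hd h => ?_⟩
  · obtain ⟨m, rfl⟩ : ∃ m, n = m + 4 := ⟨n - 4, by omega⟩
    obtain ⟨F, hF, hno, hk⟩ := Nat.sInf_mem (s := {k | ∃ F : Finset (Finset (Fin (m + 4))),
      (∀ X ∈ F, X.card = 4) ∧ (∀ c, ¬ Acceptable F c) ∧ d2 F = k})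
      ⟨_, Blk (m + 4), blk_card, blocked, rfl⟩
    have h := lower hn F hF hno
    rw [hk] at h
    exact h
  · obtain ⟨m, rfl⟩ : ∃ m, n = m + 4 := ⟨n - 4, by omega⟩
    have h1 : m2 (m + 4) ≤ d2 (Blk (m + 4)) := Nat.sInf_le ⟨Blk (m + 4), blk_card, blocked, rfl⟩
    have h2 := d2_le (m := m)
    omega
  · obtain ⟨σ, hσ⟩ := placement G hG F hF d hd h
    refine ⟨σ, fun a b a' b' h1 h2 hdis hmem => ?_⟩
    have hne : ∀ x ∈ ({a, b} : Finset (Fin n)), ∀ y ∈ ({a', b'} : Finset (Fin n)), x ≠ y := by
      intro x hx y hy hxy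
      subst hxy
      have k1 : σ x ∈ ({σ a, σ b} : Finset (Fin n)) := by
        rcases Finset.mem_insert.1 hx with rfl | hx
        · exact Finset.mem_insert_self _ _
        · rw [Finset.mem_singleton.1 hx]; simp
      have k2 : σ x ∈ ({σ a', σ b'} : Finset (Fin n)) := by
        rcases Finset.mem_insert.1 hy with rfl | hy
        · exact Finset.mem_insert_self _ _
        · rw [Finset.mem_singleton.1 hy]; simp
      exact Finset.disjoint_left.1 hdis k1 k2
    refine hσ a b a' b' h1 h2 (hne a (by simp) a' (by simp)) (hne a (by simp) b' (by simp))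
      (hne b (by simp) a' (by simp)) (hne b (by simp) b' (by simp)) ?_
    have e : ({σ a, σ b, σ a', σ b'} : Finset (Fin n)) = {σ a, σ b} ∪ {σ a', σ b'} := by
      ext x
      simp only [Finset.mem_union, Finset.mem_insert, Finset.mem_singleton]
      tauto
    rw [e]; exact hmem

end Pool.Agent.Results.MP_626dc7_co.TwoSided
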